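import Pool.Agent.Y320.ST.Stm
import Pool.Agent.Y320.CM.Basic

/-!
# Project ST: the sign of the Jacobian on the sphere, countability, transport
-/

set_option autoImplicit false
open Filter Topology MeasureTheory Metric

namespace Pool.Agent.Y708.ST
open Pool.Agent.Y320.CM Pool.Agent.Y320.ST

/-! ### countability -/

theorem act_inj {G : Type} [Group G] {τ : G → Sph → Sph} (h : Act G τ) (g : G) :
    Function.Injective (τ g) := by
  intro x y hxy
  have h1 : τ g⁻¹ (τ g x) = τ g⁻¹ (τ g y) := by rw [hxy]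
  rw [← h.mul, ← h.mul, inv_mul_cancel, h.one, h.one] at h1
  exact h1

theorem t_CTB : S_CTB := by
  intro G _ τ h
  obtain ⟨a, -⟩ := exists_new ∅
  obtain ⟨b, hb⟩ := exists_new {a}
  obtain ⟨e, he⟩ := exists_new {a, b}
  have hab : a ≠ b := fun h => hb (by rw [h]; exact Finset.mem_singleton_self _)
  have hae : a ≠ e := fun h => he (by rw [← h]; exact Finset.mem_insert_self _ _)
  have hbe : b ≠ e := fun h => he (by rw [← h]; simp)
  have h1 : (Set.univ : Set G) ⊆ ⋃ n : ℕ, {g : G | 1 / ((n : ℝ) + 1) ≤ dist (τ g a) (τ g b) ∧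
      1 / ((n : ℝ) + 1) ≤ dist (τ g a) (τ g e) ∧ 1 / ((n : ℝ) + 1) ≤ dist (τ g b) (τ g e)} := by
    intro g _
    have d1 : 0 < dist (τ g a) (τ g b) := dist_pos.2 ((act_inj h g).ne hab)
    have d2 : 0 < dist (τ g a) (τ g e) := dist_pos.2 ((act_inj h g).ne hae)
    have d3 : 0 < dist (τ g b) (τ g e) := dist_pos.2 ((act_inj h g).ne hbe)
    obtain ⟨n, hn⟩ := exists_nat_one_div_lt (lt_min d1 (lt_min d2 d3))
    rw [Set.mem_iUnion]
    refine ⟨n, ?_, ?_, ?_⟩
    · exact hn.le.trans (min_le_left _ _)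
    · exact hn.le.trans ((min_le_right _ _).trans (min_le_left _ _))
    · exact hn.le.trans ((min_le_right _ _).trans (min_le_right _ _))
  have h2 : (⋃ n : ℕ, {g : G | 1 / ((n : ℝ) + 1) ≤ dist (τ g a) (τ g b) ∧
      1 / ((n : ℝ) + 1) ≤ dist (τ g a) (τ g e) ∧
      1 / ((n : ℝ) + 1) ≤ dist (τ g b) (τ g e)}).Countable :=
    Set.countable_iUnion fun n => (h.prop a b e hab hae hbe _ (by positivity)).countable
  exact Set.countable_univ_iff.1 (h2.mono h1)

/-! ### transport -/

theorem uc (F : Sph → Sph) (hF : Continuous F) {c : ℝ} (hc : 0 < c) :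
    ∃ δ : ℝ, 0 < δ ∧ ∀ x y, c ≤ dist (F x) (F y) → δ ≤ dist x y := by
  have h1 : UniformContinuous F := CompactSpace.uniformContinuous_of_continuous hF
  obtain ⟨δ, hδ, h⟩ := Metric.uniformContinuous_iff.1 h1 c hc
  refine ⟨δ, hδ, fun x y hxy => ?_⟩
  by_contra hcon
  push Not at hcon
  exact absurd (h hcon) (not_lt.2 hxy)

theorem t_TRANS : S_TRANS := by
  intro G _ τ h F
  refine ⟨fun x => ?_, fun g g' x => ?_, fun g => ?_, fun A U hU hUn => ?_, fun x => ?_,
    fun a b e hab hae hbe c hc => ?_, ?_⟩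
  · rw [h.one, F.apply_symm_apply]
  · rw [h.mul, F.symm_apply_apply]
  · exact F.continuous.comp ((h.cont g).comp F.symm.continuous)
  · classical
    obtain ⟨y, hy⟩ := hUn
    obtain ⟨g, hg⟩ := h.contr (A.image F.symm) (F ⁻¹' U) (hU.preimage F.continuous)
      ⟨F.symm y, by rw [Set.mem_preimage, F.apply_symm_apply]; exact hy⟩
    exact ⟨g, fun a ha => hg _ (Finset.mem_image_of_mem _ ha)⟩
  · obtain ⟨𝓦, v, w, hvw, h1, h2⟩ := h.con (F.symm x)
    refine ⟨𝓦, F v, F w, F.injective.ne hvw, (F.continuous.tendsto w).comp h1, fun y hy => ?_⟩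
    exact (F.continuous.tendsto v).comp (h2 _ (F.symm.injective.ne hy))
  · obtain ⟨δ, hδ, h1⟩ := uc F F.continuous hc
    refine (h.prop (F.symm a) (F.symm b) (F.symm e) (F.symm.injective.ne hab)
      (F.symm.injective.ne hae) (F.symm.injective.ne hbe) δ hδ).subset ?_
    rintro g ⟨g1, g2, g3⟩
    exact ⟨h1 _ _ g1, h1 _ _ g2, h1 _ _ g3⟩
  · obtain ⟨c, hc, h1⟩ := h.coc
    obtain ⟨δ, hδ, h2⟩ := uc F.symm F.symm.continuous hc
    refine ⟨δ, hδ, fun a b e hab hae hbe => ?_⟩
    obtain ⟨g, g1, g2, g3⟩ := h1 (F.symm a) (F.symm b) (F.symm e) (F.symm.injective.ne hab)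
      (F.symm.injective.ne hae) (F.symm.injective.ne hbe)
    refine ⟨g, h2 _ _ ?_, h2 _ _ ?_, h2 _ _ ?_⟩
    · rw [F.symm_apply_apply, F.symm_apply_apply]; exact g1
    · rw [F.symm_apply_apply, F.symm_apply_apply]; exact g2
    · rw [F.symm_apply_apply, F.symm_apply_apply]; exact g3

/-! ### the sign of the Jacobian -/

/-- a complex multiple has determinant the square of the absolute value -/
theorem det_smul (k : ℂ) : (k • (1 : ℂ →L[ℝ] ℂ)).det = Complex.normSq k := by
  rw [← Algebra.norm_complex_apply, Algebra.norm_apply]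
  unfold ContinuousLinearMap.det
  congr 1

theorem det_comp (k : ℂ) (T : ℂ →L[ℝ] ℂ) :
    ((k • (1 : ℂ →L[ℝ] ℂ)).comp T).det = Complex.normSq k * T.det := by
  rw [← det_smul]
  unfold ContinuousLinearMap.det
  rw [← LinearMap.det_comp]
  rfl

theorem det_zero' : (0 : ℂ →L[ℝ] ℂ).det = 0 := by
  unfold ContinuousLinearMap.det
  rw [ContinuousLinearMap.toLinearMap_zero, LinearMap.det_zero, Complex.finrank_real_complex]
  norm_num

theorem t_SGNS (hS : S_STB) (hR : S_ROT) (hG : S_SGN) : S_SGNS := by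
  intro N f hf hb hq
  obtain ⟨s1, s2, s3, s4, s5, -, -, s8, -⟩ := hS
  obtain ⟨B, b1, b2, b3, b4, -⟩ := hR (f inf)
  have hbij : Function.Bijective fun p => B (f p) := B.bijective.comp hb
  have hcont : Continuous (Equiv.ofBijective _ hbij) := B.continuous.comp hf
  let Hm : Sph ≃ₜ Sph := hcont.homeoOfEquivCompactToT2
  have hHm : ∀ p, Hm p = B (f p) := fun p => rfl
  have hinf : Hm inf = inf := b2
  have hinf' : Hm.symm inf = inf := by
    rw [Homeomorph.symm_apply_eq, hinf]
  have ne1 : ∀ z, Hm (sg z) ≠ inf := fun z h => s3 z (Hm.injective (h.trans hinf.symm))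
  have ne2 : ∀ z, Hm.symm (sg z) ≠ inf := fun z h =>
    s3 z (Hm.symm.injective (h.trans hinf'.symm))
  let u : ℂ ≃ₜ ℂ :=
    { toFun := fun z => st (Hm (sg z))
      invFun := fun w => st (Hm.symm (sg w))
      left_inv := fun z => by
        show st (Hm.symm (sg (st (Hm (sg z))))) = z
        rw [s2 _ (ne1 z), Homeomorph.symm_apply_apply, s1]
      right_inv := fun z => by
        show st (Hm (sg (st (Hm.symm (sg z))))) = z
        rw [s2 _ (ne2 z), Homeomorph.apply_symm_apply, s1]
      continuous_toFun := s5.comp_continuous (Hm.continuous.comp s4) ne1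
      continuous_invFun := s5.comp_continuous (Hm.symm.continuous.comp s4) ne2 }
  have hu : ∀ z, sg (u z) = Hm (sg z) := fun z => s2 _ (ne1 z)
  have hsginj : Function.Injective sg := fun z w h => by rw [← s1 z, ← s1 w, h]
  have hcr : ∀ a b c e, cr (B a) (B b) (B c) (B e) = cr a b c e := by
    intro a b c e
    unfold cr
    rw [b1, b1, b1, b1]
  have hW : WQS (max 1 (N 3)) u := by
    intro a b c habc
    have hH : (1 : ℝ) ≤ max 1 (N 3) := le_max_left _ _
    by_cases hac : a = c
    · rw [hac, dist_self, mul_zero] at habc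
      have hbc : c = b := dist_le_zero.1 habc
      rw [hac, hbc, dist_self]
      positivity
    · by_cases hab : a = b
      · rw [hab, dist_self]
        positivity
      · by_cases hbc : b = c
        · rw [hbc]
          exact le_mul_of_one_le_left dist_nonneg hH
        · have hD : D4 (sg a) (sg b) (sg c) inf :=
            ⟨hsginj.ne hab, hsginj.ne hac, s3 a, hsginj.ne hbc, s3 b, s3 c⟩
          have hpos : 0 < dist a c := dist_pos.2 hac
          have h1 : cr (sg a) (sg b) (sg c) inf ≤ 3 := by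
            rw [s8 a b c hac, div_le_iff₀ hpos]
            exact habc
          have h2 := hq _ _ _ _ hD 3 h1
          have h3 : cr (f (sg a)) (f (sg b)) (f (sg c)) (f inf) =
              cr (sg (u a)) (sg (u b)) (sg (u c)) inf := by
            rw [hu, hu, hu, ← hcr (f (sg a)), b2, hHm, hHm, hHm]
          have hne : u a ≠ u c := u.injective.ne hac
          have hpos2 : 0 < dist (u a) (u c) := dist_pos.2 hne
          rw [h3, s8 _ _ _ hne, div_le_iff₀ hpos2] at h2
          exact h2.trans (mul_le_mul_of_nonneg_right (le_max_right _ _) hpos2.le)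
  have key : ∀ z, f (sg z) ≠ inf → ∃ t : ℝ, 0 ≤ t ∧
      (fderiv ℝ (pl f) z).det = t * (fderiv ℝ u z).det := by
    intro z hz
    by_cases hd : DifferentiableAt ℝ u z
    · have e : pl f = pl B.symm ∘ u := by
        funext z'
        show st (f (sg z')) = st (B.symm (sg (u z')))
        rw [hu, hHm, Homeomorph.symm_apply_apply]
      have hne : B.symm (sg (u z)) ≠ inf := by
        rw [hu, hHm, Homeomorph.symm_apply_apply]
        exact hz
      obtain ⟨k, -, hk⟩ := b4 (u z) hne
      have h1 := hk.complexToReal_fderiv.comp z hd.hasFDerivAt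
      refine ⟨Complex.normSq k, Complex.normSq_nonneg k, ?_⟩
      rw [e, h1.fderiv, det_comp]
    · refine ⟨0, le_rfl, ?_⟩
      have hnd : ¬ DifferentiableAt ℝ (pl f) z := by
        intro hdp
        apply hd
        have hp : sg (pl f z) = f (sg z) := s2 _ hz
        have hne : B (sg (pl f z)) ≠ inf := by
          rw [hp, ← hHm]
          exact ne1 z
        obtain ⟨k, -, hk⟩ := b3 (pl f z) hne
        have h1 := hk.complexToReal_fderiv.comp z hdp.hasFDerivAt
        have h2 : (u : ℂ → ℂ) =ᶠ[𝓝 z] pl B ∘ pl f := by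
          have h3 : ∀ᶠ z' in 𝓝 z, f (sg z') ≠ inf :=
            (hf.comp s4).continuousAt.eventually_ne hz
          filter_upwards [h3] with z' hz'
          show st (Hm (sg z')) = st (B (sg (st (f (sg z')))))
          rw [s2 _ hz', hHm]
        exact (h1.congr_of_eventuallyEq h2).differentiableAt
      rw [fderiv_zero_of_not_differentiableAt hnd, det_zero', zero_mul]
  have hae : ∀ᵐ z : ℂ, f (sg z) ≠ inf := by
    rw [ae_iff]
    have h1 : ({z : ℂ | ¬ f (sg z) ≠ inf} : Set ℂ).Subsingleton := by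
      intro z hz w hw
      simp only [ne_eq, not_not, Set.mem_ofPred_eq] at hz hw
      exact hsginj (hb.1 (hz.trans hw.symm))
    exact h1.measure_zero _
  rcases hG _ u hW with h | h
  · left
    filter_upwards [h, hae] with z h1 h2
    obtain ⟨t, ht, he⟩ := key z h2
    rw [he]
    exact mul_nonneg ht h1
  · right
    filter_upwards [h, hae] with z h1 h2
    obtain ⟨t, ht, he⟩ := key z h2
    rw [he]
    exact mul_nonpos_of_nonneg_of_nonpos ht h1

end Pool.Agent.Y708.ST
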